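import Pool.Agent.W661.RC.Stm

/-!
# RC, RES (b): commutators of resolvents with a unitary
-/

set_option autoImplicit false

namespace Pool.Agent.W486.RC

open Matrix Pool.Agent.W661.RC
open scoped ComplexOrder

noncomputable section

variable {d : ℕ}

theorem tr_add (x y : Mt d) : tr (x + y) = tr x + tr y := by simp [tr, Matrix.trace_add]
theorem tr_sub (x y : Mt d) : tr (x - y) = tr x - tr y := by simp [tr, Matrix.trace_sub]
theorem tr_neg (x : Mt d) : tr (-x) = - tr x := by simp [tr, Matrix.trace_neg]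
theorem tr_smul (c : ℝ) (x : Mt d) : tr ((c : ℂ) • x) = c * tr x := by
  simp [tr, Matrix.trace_smul]
theorem tr_conj (x : Mt d) : tr xᴴ = tr x := by
  simp [tr, Matrix.trace_conjTranspose]
theorem tr_comm (x y : Mt d) : tr (x * y) = tr (y * x) := by
  simp only [tr]; rw [Matrix.trace_mul_comm]
theorem tr_sum {ι : Type} (s : Finset ι) (x : ι → Mt d) :
    tr (∑ i ∈ s, x i) = ∑ i ∈ s, tr (x i) := by
  simp [tr, Matrix.trace_sum]

theorem hs_eq' (x : Mt d) : hs x = tr (x * xᴴ) := by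
  simp only [hs, tr, Matrix.trace, Matrix.diag_apply, Matrix.mul_apply, Matrix.conjTranspose_apply,
    Complex.re_sum]
  refine Finset.sum_congr rfl fun i _ => Finset.sum_congr rfl fun j _ => ?_
  rw [Complex.star_def, Complex.mul_conj, Complex.normSq_eq_norm_sq]
  norm_cast

theorem hs_eq (x : Mt d) : hs x = tr (xᴴ * x) := by
  rw [hs_eq', tr_comm]

theorem hs_nonneg (x : Mt d) : 0 ≤ hs x := by
  unfold hs; positivity

theorem tr_nonneg {P : Mt d} (h : P.PosSemidef) : 0 ≤ tr P := by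
  have := h.trace_nonneg
  rw [Complex.le_def] at this
  exact this.1

theorem cj_nonneg {P : Mt d} (h : P.PosSemidef) (A : Mt d) : 0 ≤ tr (A * P * Aᴴ) :=
  tr_nonneg (h.mul_mul_conjTranspose_same A)

theorem cj_mono {P P' : Mt d} (h : Le P P') (A : Mt d) : tr (A * P * Aᴴ) ≤ tr (A * P' * Aᴴ) := by
  have := cj_nonneg h A
  rw [Matrix.mul_sub, Matrix.sub_mul, tr_sub] at this
  linarith

/-- Cauchy-Schwarz with weights. -/
theorem cs {R : Mt d} (h : R.PosSemidef) (A B : Mt d) (c : ℝ) (hc : 0 < c) :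
    2 * tr (A * R * Bᴴ) ≤ c * tr (A * R * Aᴴ) + c⁻¹ * tr (B * R * Bᴴ) := by
  have h1 := cj_nonneg h ((c : ℂ) • A - B)
  have h2 : tr (B * R * Aᴴ) = tr (A * R * Bᴴ) := by
    rw [← tr_conj]
    simp only [Matrix.conjTranspose_mul, Matrix.conjTranspose_conjTranspose, h.isHermitian.eq]
    rw [Matrix.mul_assoc]
  have h3 : tr (((c : ℂ) • A - B) * R * ((c : ℂ) • A - B)ᴴ)
      = c * (c * tr (A * R * Aᴴ)) - c * tr (A * R * Bᴴ) - c * tr (B * R * Aᴴ)
        + tr (B * R * Bᴴ) := by
    have e : ((c : ℂ) • A - B) * R * ((c : ℂ) • A - B)ᴴ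
        = (c : ℂ) • ((c : ℂ) • (A * R * Aᴴ)) - (c : ℂ) • (A * R * Bᴴ) - (c : ℂ) • (B * R * Aᴴ)
          + B * R * Bᴴ := by
      simp only [Matrix.conjTranspose_sub, Matrix.conjTranspose_smul, Complex.star_def,
        Complex.conj_ofReal, Matrix.sub_mul, Matrix.mul_sub, Matrix.smul_mul, Matrix.mul_smul,
        smul_sub]
      abel
    rw [e, tr_add, tr_sub, tr_sub, tr_smul, tr_smul, tr_smul, tr_smul]
  rw [h3, h2] at h1
  have h4 : 2 * c * tr (A * R * Bᴴ) ≤ c * (c * tr (A * R * Aᴴ)) + tr (B * R * Bᴴ) := by linarith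
  have h5 : 2 * tr (A * R * Bᴴ) = c⁻¹ * (2 * c * tr (A * R * Bᴴ)) := by field_simp
  have h6 : c * tr (A * R * Aᴴ) + c⁻¹ * tr (B * R * Bᴴ)
      = c⁻¹ * (c * (c * tr (A * R * Aᴴ)) + tr (B * R * Bᴴ)) := by field_simp
  rw [h5, h6]
  exact mul_le_mul_of_nonneg_left h4 (by positivity)

theorem cs' {R : Mt d} (h : R.PosSemidef) (A B : Mt d) (c : ℝ) (hc : 0 < c) :
    -(2 * tr (A * R * Bᴴ)) ≤ c * tr (A * R * Aᴴ) + c⁻¹ * tr (B * R * Bᴴ) := by
  have := cs h A (-B) c hc
  simpa [tr_neg] using this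

theorem hs_add_le (x y : Mt d) : hs (x + y) ≤ 2 * hs x + 2 * hs y := by
  have h := cs (Matrix.PosSemidef.one (n := Fin d) (R := ℂ)) x y 1 one_pos
  have e : hs (x + y) = hs x + 2 * tr (x * yᴴ) + hs y := by
    rw [hs_eq', hs_eq', hs_eq']
    have e1 : (x + y) * (x + y)ᴴ = x * xᴴ + x * yᴴ + y * xᴴ + y * yᴴ := by
      rw [Matrix.conjTranspose_add, Matrix.add_mul, Matrix.mul_add, Matrix.mul_add]; abel
    have e2 : tr (y * xᴴ) = tr (x * yᴴ) := by
      rw [← tr_conj]; simp
    rw [e1, tr_add, tr_add, tr_add, e2]; ring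
  simp only [Matrix.mul_one, one_mul, inv_one] at h
  rw [e, hs_eq', hs_eq']
  linarith

theorem hs_neg (x : Mt d) : hs (-x) = hs x := by simp [hs]

theorem hs_sub_le (x y : Mt d) : hs (x - y) ≤ 2 * hs x + 2 * hs y := by
  have := hs_add_le x (-y)
  rwa [hs_neg, ← sub_eq_add_neg] at this

theorem hs_smul (c : ℝ) (x : Mt d) : hs ((c : ℂ) • x) = c ^ 2 * hs x := by
  simp only [hs, Matrix.smul_apply, smul_eq_mul, norm_mul, Complex.norm_real, mul_pow,
    Real.norm_eq_abs, sq_abs, Finset.mul_sum]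

/-! ### Resolvents -/

theorem le_refl' (a : Mt d) : Le a a := by
  unfold Le; rw [sub_self]; exact Matrix.PosSemidef.zero

theorem le_trans' {a b c : Mt d} (h : Le a b) (h' : Le b c) : Le a c := by
  unfold Le at *
  have := h.add h'
  simpa using this

theorem pr_psd {f : Mt d} (h : IsPr f) : f.PosSemidef := by
  have := Matrix.posSemidef_conjTranspose_mul_self f
  rw [h.1, h.2] at this
  exact this

theorem pr_le {f : Mt d} (h : IsPr f) : Le f 1 := by
  have h2 : IsPr (1 - f) := by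
    refine ⟨by simp [h.1], ?_⟩
    rw [Matrix.sub_mul, Matrix.mul_sub, Matrix.mul_sub, h.2]; simp
  exact pr_psd h2

section res

variable {lam : ℝ} {Q : Mt d}

theorem psd_smul {P : Mt d} (h : P.PosSemidef) {c : ℝ} (hc : 0 ≤ c) :
    ((c : ℂ) • P).PosSemidef := by
  refine h.smul ?_
  rw [Complex.zero_le_real]; exact hc

theorem pd (hl : 0 ≤ lam) (hQ : Q.PosSemidef) : (1 + (lam : ℂ) • Q).PosDef :=
  Matrix.PosDef.one.add_posSemidef (psd_smul hQ hl)

theorem gpd (hl : 0 ≤ lam) (hQ : Q.PosSemidef) : (gg lam Q).PosDef := (pd hl hQ).inv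

theorem gmul (hl : 0 ≤ lam) (hQ : Q.PosSemidef) : gg lam Q * (1 + (lam : ℂ) • Q) = 1 :=
  Matrix.nonsing_inv_mul _ ((Matrix.isUnit_iff_isUnit_det _).1 (pd hl hQ).isUnit)

theorem mulg (hl : 0 ≤ lam) (hQ : Q.PosSemidef) : (1 + (lam : ℂ) • Q) * gg lam Q = 1 :=
  Matrix.mul_nonsing_inv _ ((Matrix.isUnit_iff_isUnit_det _).1 (pd hl hQ).isUnit)

theorem gherm (hl : 0 ≤ lam) (hQ : Q.PosSemidef) : (gg lam Q)ᴴ = gg lam Q :=
  (gpd hl hQ).isHermitian.eq

/-- `g ≤ 1`. -/
theorem g_le_one (hl : 0 ≤ lam) (hQ : Q.PosSemidef) : Le (gg lam Q) 1 := by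
  have h1 := mulg hl hQ
  have h2 := gmul hl hQ
  have hh := gherm hl hQ
  -- 1 - g = lam g Q g + lam^2 g Q Q ... use 1 - g = lam Q g and g (..) g
  set g := gg lam Q with hg
  have e : (1 : Mt d) - g = g * ((lam : ℂ) • Q) * gᴴ + g * (((lam : ℂ) • Q) * ((lam : ℂ) • Q)ᴴ) * gᴴ := by
    have hQh : ((lam : ℂ) • Q)ᴴ = (lam : ℂ) • Q := by
      rw [Matrix.conjTranspose_smul, hQ.isHermitian.eq, Complex.star_def, Complex.conj_ofReal]
    rw [hh, hQh]
    set A := (lam : ℂ) • Q with hA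
    have a1 : A * g = 1 - g := by
      have : (1 + A) * g = g + A * g := by rw [Matrix.add_mul, Matrix.one_mul]
      rw [h1] at this
      rw [this]; abel
    have a2 : g * A = 1 - g := by
      have : g * (1 + A) = g + g * A := by rw [Matrix.mul_add, Matrix.mul_one]
      rw [h2] at this
      rw [this]; abel
    have e1 : g * A * g = g * (A * g) := Matrix.mul_assoc _ _ _
    have e2 : g * (A * A) * g = (g * A) * (A * g) := by simp only [Matrix.mul_assoc]
    rw [e1, e2, a1, a2, Matrix.mul_sub, Matrix.mul_one, Matrix.sub_mul, Matrix.mul_sub,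
      Matrix.mul_sub]
    simp
  unfold Le
  rw [e]
  refine ((psd_smul hQ hl).mul_mul_conjTranspose_same g).add ?_
  exact (Matrix.posSemidef_self_mul_conjTranspose _).mul_mul_conjTranspose_same g

/-- `g Q g ≤ 1 / (4 lam)`. -/
theorem gQg_le (hl : 0 ≤ lam) (hQ : Q.PosSemidef) :
    Le (((4 * lam : ℝ) : ℂ) • (gg lam Q * Q * gg lam Q)) 1 := by
  have h1 := mulg hl hQ
  have h2 := gmul hl hQ
  have hh := gherm hl hQ
  set g := gg lam Q with hg
  have hQh : ((lam : ℂ) • Q)ᴴ = (lam : ℂ) • Q := by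
    rw [Matrix.conjTranspose_smul, hQ.isHermitian.eq, Complex.star_def, Complex.conj_ofReal]
  have e : (1 : Mt d) - ((4 * lam : ℝ) : ℂ) • (g * Q * g)
      = (g * (1 - (lam : ℂ) • Q)) * (g * (1 - (lam : ℂ) • Q))ᴴ := by
    rw [Matrix.conjTranspose_mul, Matrix.conjTranspose_sub, hh, hQh, Matrix.conjTranspose_one]
    have hs4 : ((4 * lam : ℝ) : ℂ) • (g * Q * g) = (4 : ℂ) • (g * ((lam : ℂ) • Q) * g) := by
      rw [Matrix.mul_smul, Matrix.smul_mul, smul_smul]; norm_cast
    rw [hs4]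
    set A := (lam : ℂ) • Q with hA
    have a1 : A * g = 1 - g := by
      have : (1 + A) * g = g + A * g := by rw [Matrix.add_mul, Matrix.one_mul]
      rw [h1] at this
      rw [this]; abel
    have a2 : g * A = 1 - g := by
      have : g * (1 + A) = g + g * A := by rw [Matrix.mul_add, Matrix.mul_one]
      rw [h2] at this
      rw [this]; abel
    have a3 : (1 - A) * g = g - (1 - g) := by rw [Matrix.sub_mul, Matrix.one_mul, a1]
    rw [Matrix.mul_sub, Matrix.mul_one, a2, a3]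
    simp only [Matrix.sub_mul, Matrix.mul_sub, Matrix.one_mul, Matrix.mul_one, smul_sub]
    have : (4 : ℂ) • g = g + g + g + g := by
      rw [show (4 : ℂ) = 1 + 1 + 1 + 1 by norm_num, add_smul, add_smul, add_smul, one_smul]
    have h4 : (4 : ℂ) • (g * g) = g * g + g * g + g * g + g * g := by
      rw [show (4 : ℂ) = 1 + 1 + 1 + 1 by norm_num, add_smul, add_smul, add_smul, one_smul]
    rw [this, h4]
    abel
  unfold Le
  rw [e]
  exact Matrix.posSemidef_self_mul_conjTranspose _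


theorem g2_eq (hl : 0 ≤ lam) (hQ : Q.PosSemidef) :
    gg lam Q - gg lam Q * gg lam Q = gg lam Q * ((lam : ℂ) • Q) * gg lam Q := by
  have h1 := mulg hl hQ
  set g := gg lam Q with hg
  have a1 : ((lam : ℂ) • Q) * g = 1 - g := by
    have : (1 + (lam : ℂ) • Q) * g = g + ((lam : ℂ) • Q) * g := by
      rw [Matrix.add_mul, Matrix.one_mul]
    rw [h1] at this
    rw [this]; abel
  rw [Matrix.mul_assoc, a1, Matrix.mul_sub, Matrix.mul_one]

theorem g2_le (hl : 0 ≤ lam) (hQ : Q.PosSemidef) : Le (gg lam Q * gg lam Q) (gg lam Q) := by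
  unfold Le
  rw [g2_eq hl hQ]
  have := (psd_smul hQ hl).mul_mul_conjTranspose_same (gg lam Q)
  rwa [gherm hl hQ] at this

theorem g2_le_one (hl : 0 ≤ lam) (hQ : Q.PosSemidef) : Le (gg lam Q * gg lam Q) 1 :=
  le_trans' (g2_le hl hQ) (g_le_one hl hQ)

theorem hs_g_mul (hl : 0 ≤ lam) (hQ : Q.PosSemidef) (x : Mt d) : hs (gg lam Q * x) ≤ hs x := by
  have := cj_mono (g2_le_one hl hQ) xᴴ
  rw [hs_eq, hs_eq, Matrix.conjTranspose_mul, gherm hl hQ]
  simpa [Matrix.mul_assoc] using this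

theorem hs_mul_g (hl : 0 ≤ lam) (hQ : Q.PosSemidef) (x : Mt d) :
    hs (x * gg lam Q) ≤ tr (x * gg lam Q * xᴴ) := by
  have := cj_mono (g2_le hl hQ) x
  rw [hs_eq', Matrix.conjTranspose_mul, gherm hl hQ]
  simpa [Matrix.mul_assoc] using this

theorem tr_g_le (hl : 0 ≤ lam) (hQ : Q.PosSemidef) (x : Mt d) :
    tr (x * gg lam Q * xᴴ) ≤ hs x := by
  have := cj_mono (g_le_one hl hQ) x
  rw [hs_eq']
  simpa using this

/-- One step of the resolvent. -/
theorem step (hl : 0 < lam) (hQ : Q.PosSemidef) {f : Mt d} (hf : IsPr f) :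
    ∃ R : Mt d, R.PosSemidef ∧ Le R 1 ∧ f * gg lam (Q + f) = R * f * gg lam Q ∧
      gg lam Q - gg lam (Q + f) = (lam : ℂ) • (gg lam Q * f * R * f * gg lam Q) ∧
      Le ((lam : ℂ) • (f * gg lam (Q + f) * f)) 1 ∧
      Le (gg lam Q * f * gg lam Q)
        (((1 + lam : ℝ) : ℂ) • (gg lam Q * f * R * f * gg lam Q)) := by
  have hQf : (Q + f).PosSemidef := hQ.add (pr_psd hf)
  have g1 := gmul hl.le hQ
  have g2 := mulg hl.le hQf
  have hgh := gherm hl.le hQ
  have hgp : (gg lam Q).PosSemidef := (gpd hl.le hQ).posSemidef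
  have hg2 : (gg lam Q - gg lam Q * gg lam Q).PosSemidef := g2_le hl.le hQ
  have hg1 : (1 - gg lam Q).PosSemidef := g_le_one hl.le hQ
  set g := gg lam Q with hg
  set g' := gg lam (Q + f) with hg'
  have hX : (f * g * f).PosSemidef := by
    have := hgp.mul_mul_conjTranspose_same f
    rwa [hf.1] at this
  set X := f * g * f with hXd
  have hXf : X * f = X := by rw [hXd, Matrix.mul_assoc, hf.2]
  have hfX : f * X = X := by
    rw [hXd, Matrix.mul_assoc, ← Matrix.mul_assoc, hf.2]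
  have r1 := gmul hl.le hX
  have r2 := mulg hl.le hX
  have hRh := gherm hl.le hX
  have hRp : (gg lam X).PosSemidef := (gpd hl.le hX).posSemidef
  have hR1 : Le (gg lam X) 1 := g_le_one hl.le hX
  set R := gg lam X with hR
  have k1 : g = g' + (lam : ℂ) • (g * f * g') := by
    have e1 : g * (1 + (lam : ℂ) • (Q + f)) * g' = g := by
      rw [Matrix.mul_assoc, g2, Matrix.mul_one]
    have e2 : g * (1 + (lam : ℂ) • (Q + f)) * g'
        = (g * (1 + (lam : ℂ) • Q)) * g' + (lam : ℂ) • (g * f * g') := by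
      rw [smul_add, ← add_assoc, Matrix.mul_add g (1 + (lam : ℂ) • Q), Matrix.add_mul,
        Matrix.mul_smul, Matrix.smul_mul]
    rw [e1, g1, Matrix.one_mul] at e2
    exact e2
  have k2 : f * g = (1 + (lam : ℂ) • X) * (f * g') := by
    calc f * g = f * (g' + (lam : ℂ) • (g * f * g')) := by rw [← k1]
      _ = f * g' + (lam : ℂ) • (X * g') := by
          rw [Matrix.mul_add, Matrix.mul_smul, hXd]; simp only [Matrix.mul_assoc]
      _ = f * g' + (lam : ℂ) • (X * (f * g')) := by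
          rw [← Matrix.mul_assoc X, hXf]
      _ = _ := by rw [Matrix.add_mul, Matrix.one_mul, Matrix.smul_mul]
  have k3 : f * g' = R * f * g := by
    rw [Matrix.mul_assoc, k2, ← Matrix.mul_assoc, r1, Matrix.one_mul]
  have k4 : g - g' = (lam : ℂ) • (g * f * R * f * g) := by
    have e : g * f * g' = g * f * R * f * g := by
      calc g * f * g' = g * f * (f * g') := by
            rw [← Matrix.mul_assoc, Matrix.mul_assoc g f f, hf.2]
        _ = _ := by rw [k3]; simp only [Matrix.mul_assoc]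
    rw [← e]
    nth_rewrite 1 [k1]
    abel
  refine ⟨R, hRp, hR1, k3, k4, ?_, ?_⟩
  · have e : (lam : ℂ) • (f * g' * f) = 1 - R := by
      have e1 : f * g' * f = R * X := by
        rw [k3, hXd]; simp only [Matrix.mul_assoc]
      have e2 : R * (1 + (lam : ℂ) • X) = R + (lam : ℂ) • (R * X) := by
        rw [Matrix.mul_add, Matrix.mul_one, Matrix.mul_smul]
      rw [r1] at e2
      rw [e1, e2]; abel
    unfold Le
    rw [e, sub_sub_cancel]
    exact hRp
  · have hXX : (X - X * X).PosSemidef := by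
      have e : X - X * X = f * (g - g * g) * fᴴ + (f * g) * (1 - f) * (f * g)ᴴ := by
        rw [Matrix.conjTranspose_mul, hf.1, hgh]
        simp only [hXd, Matrix.mul_sub, Matrix.sub_mul, Matrix.mul_one]
        have : f * g * f * (f * g * f) = f * g * f * (g * f) := by
          calc f * g * f * (f * g * f) = f * g * (f * f) * (g * f) := by
                simp only [Matrix.mul_assoc]
            _ = _ := by rw [hf.2]
        rw [this]
        simp only [Matrix.mul_assoc]
        abel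
      rw [e]
      exact (hg2.mul_mul_conjTranspose_same f).add
        (Matrix.PosSemidef.mul_mul_conjTranspose_same (pr_le hf) _)
    have hX1 : (1 - X).PosSemidef := by
      have e : 1 - X = (1 - f) + f * (1 - g) * fᴴ := by
        rw [hf.1, hXd, Matrix.mul_sub, Matrix.sub_mul, Matrix.mul_one, hf.2]; abel
      rw [e]
      exact Matrix.PosSemidef.add (pr_le hf) (hg1.mul_mul_conjTranspose_same f)
    have hRR : (((1 + lam : ℝ) : ℂ) • R - 1).PosSemidef := by
      have e : ((1 + lam : ℝ) : ℂ) • R - 1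
          = (lam : ℂ) • (R * ((1 - X) + (lam : ℂ) • (X - X * X)) * Rᴴ) := by
        rw [hRh]
        have e1 : (1 - X) + (lam : ℂ) • (X - X * X) = (1 - X) * (1 + (lam : ℂ) • X) := by
          rw [Matrix.mul_add, Matrix.mul_one, Matrix.mul_smul, Matrix.sub_mul, Matrix.one_mul]
        have e2 : R * ((1 - X) * (1 + (lam : ℂ) • X)) * R = R * (1 - X) := by
          rw [Matrix.mul_assoc, Matrix.mul_assoc, r2, Matrix.mul_one]
        rw [e1, e2, Matrix.mul_sub, Matrix.mul_one, smul_sub]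
        have e3 : (lam : ℂ) • (R * X) = 1 - R := by
          have e2 : R * (1 + (lam : ℂ) • X) = R + (lam : ℂ) • (R * X) := by
            rw [Matrix.mul_add, Matrix.mul_one, Matrix.mul_smul]
          rw [r1] at e2
          rw [e2]; abel
        rw [e3]
        push_cast
        rw [add_smul, one_smul]; abel
      rw [e]
      refine psd_smul ?_ hl.le
      exact (hX1.add (psd_smul hXX hl.le)).mul_mul_conjTranspose_same R
    have := hRR.mul_mul_conjTranspose_same (g * f)
    unfold Le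
    convert this using 1
    rw [Matrix.conjTranspose_mul, hf.1, hgh, Matrix.mul_sub, Matrix.sub_mul, Matrix.mul_one,
      Matrix.mul_smul, Matrix.smul_mul]
    have : g * f * (f * g) = g * f * g := by
      rw [← Matrix.mul_assoc, Matrix.mul_assoc g f f, hf.2]
    rw [this]
    simp only [Matrix.mul_assoc]

end res

/-! ### The sums -/

section sums

variable {n : ℕ} {f : ℕ → Mt d} {lam : ℝ} {v : Mt d}

theorem Q_psd (hf : ∀ i < n, IsPr (f i)) {i : ℕ} (hi : i ≤ n) : (Qs f i).PosSemidef := by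
  unfold Qs
  refine Matrix.posSemidef_sum _ fun j hj => pr_psd (hf j ?_)
  have := Finset.mem_range.1 hj
  omega

theorem Q_succ (i : ℕ) : Qs f (i + 1) = Qs f i + f i := by
  unfold Qs; rw [Finset.sum_range_succ]

/-- `D_j`. -/
def DD (v : Mt d) (f : ℕ → Mt d) (j : ℕ) : Mt d := (1 - f j) * v * f j
/-- `D'_j`. -/
def DF (v : Mt d) (f : ℕ → Mt d) (j : ℕ) : Mt d := f j * v * (1 - f j)
/-- `E_i`. -/
def EE (v : Mt d) (f : ℕ → Mt d) (i : ℕ) : Mt d := ∑ j ∈ Finset.range i, DD v f j
/-- `E'_i`. -/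
def EF (v : Mt d) (f : ℕ → Mt d) (i : ℕ) : Mt d := ∑ j ∈ Finset.range i, DF v f j

theorem comm_f (j : ℕ) : v * f j - f j * v = DD v f j - DF v f j := by
  unfold DD DF
  simp only [Matrix.sub_mul, Matrix.mul_sub, Matrix.one_mul, Matrix.mul_one]
  abel

theorem comm_Q (i : ℕ) : v * Qs f i - Qs f i * v = EE v f i - EF v f i := by
  unfold EE EF Qs
  rw [← Finset.sum_sub_distrib, Finset.mul_sum, Finset.sum_mul, ← Finset.sum_sub_distrib]
  exact Finset.sum_congr rfl fun j _ => comm_f j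

theorem comm_g {Q : Mt d} (hl : 0 ≤ lam) (hQ : Q.PosSemidef) :
    v * gg lam Q - gg lam Q * v = -((lam : ℂ) • (gg lam Q * (v * Q - Q * v) * gg lam Q)) := by
  have h1 := gmul hl hQ
  have h2 := mulg hl hQ
  set g := gg lam Q with hg
  have e1 : g * ((1 + (lam : ℂ) • Q) * v) * g = v * g := by
    rw [← Matrix.mul_assoc g, h1, Matrix.one_mul]
  have e2 : g * (v * (1 + (lam : ℂ) • Q)) * g = g * v := by
    rw [Matrix.mul_assoc, Matrix.mul_assoc v, h2, Matrix.mul_one]
  rw [← e1, ← e2]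
  simp only [Matrix.mul_add, Matrix.add_mul, Matrix.mul_sub, Matrix.sub_mul, Matrix.mul_one,
    Matrix.one_mul, Matrix.mul_smul, Matrix.smul_mul, smul_sub]
  abel

theorem hs_DD (hv : vᴴ * v = 1) {j : ℕ} (hf : IsPr (f j)) :
    hs (DD v f j) = tr (f j) - tr (f j * vᴴ * f j * v * f j) := by
  rw [hs_eq]
  have : (DD v f j)ᴴ * DD v f j = f j - f j * vᴴ * f j * v * f j := by
    unfold DD
    simp only [Matrix.conjTranspose_mul, Matrix.conjTranspose_sub, Matrix.conjTranspose_one, hf.1]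
    calc f j * (vᴴ * (1 - f j)) * ((1 - f j) * v * f j)
        = f j * vᴴ * ((1 - f j) * (1 - f j)) * v * f j := by simp only [Matrix.mul_assoc]
      _ = f j * vᴴ * (1 - f j) * v * f j := by
          congr 3
          rw [Matrix.sub_mul, Matrix.mul_sub, Matrix.mul_sub, hf.2]; simp
      _ = f j * (vᴴ * v) * f j - f j * vᴴ * f j * v * f j := by
          simp only [Matrix.mul_sub, Matrix.sub_mul, Matrix.mul_one, Matrix.mul_assoc]
      _ = _ := by rw [hv, Matrix.mul_one, hf.2]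
  rw [this, tr_sub]

theorem hs_DF (hv : vᴴ * v = 1) {j : ℕ} (hf : IsPr (f j)) :
    hs (DF v f j) = tr (f j) - tr (f j * vᴴ * f j * v * f j) := by
  have hv' : v * vᴴ = 1 := mul_eq_one_comm.1 hv
  rw [hs_eq']
  have : (DF v f j) * (DF v f j)ᴴ = f j - f j * v * f j * vᴴ * f j := by
    unfold DF
    simp only [Matrix.conjTranspose_mul, Matrix.conjTranspose_sub, Matrix.conjTranspose_one, hf.1]
    calc f j * v * (1 - f j) * ((1 - f j) * (vᴴ * f j))
        = f j * v * ((1 - f j) * (1 - f j)) * vᴴ * f j := by simp only [Matrix.mul_assoc]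
      _ = f j * v * (1 - f j) * vᴴ * f j := by
          congr 3
          rw [Matrix.sub_mul, Matrix.mul_sub, Matrix.mul_sub, hf.2]; simp
      _ = f j * (v * vᴴ) * f j - f j * v * f j * vᴴ * f j := by
          simp only [Matrix.mul_sub, Matrix.sub_mul, Matrix.mul_one, Matrix.mul_assoc]
      _ = _ := by rw [hv', Matrix.mul_one, hf.2]
  rw [this, tr_sub]
  have e1 : tr (f j * v * f j * vᴴ * f j) = tr (f j * v * f j * vᴴ) := by
    rw [tr_comm]
    simp only [← Matrix.mul_assoc, hf.2]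
  have e2 : tr (f j * vᴴ * f j * v * f j) = tr (f j * vᴴ * f j * v) := by
    rw [tr_comm]
    simp only [← Matrix.mul_assoc, hf.2]
  have e3 : tr (f j * v * f j * vᴴ) = tr (f j * vᴴ * f j * v) := by
    rw [Matrix.mul_assoc (f j * v), tr_comm, ← Matrix.mul_assoc]
  rw [e1, e2, e3]

theorem hs_comm (hv : vᴴ * v = 1) {j : ℕ} (hf : IsPr (f j)) :
    hs (v * f j - f j * v) = 2 * hs (DD v f j) := by
  have e : hs (v * f j - f j * v) = hs (DD v f j) + hs (DF v f j) := by
    rw [comm_f, hs_eq', hs_eq', hs_eq']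
    have o1 : DD v f j * (DF v f j)ᴴ = 0 := by
      unfold DD DF
      simp only [Matrix.conjTranspose_mul, Matrix.conjTranspose_sub, Matrix.conjTranspose_one,
        hf.1]
      calc (1 - f j) * v * f j * ((1 - f j) * (vᴴ * f j))
          = (1 - f j) * v * (f j * (1 - f j)) * (vᴴ * f j) := by simp only [Matrix.mul_assoc]
        _ = 0 := by
            rw [Matrix.mul_sub, Matrix.mul_one, hf.2, sub_self]; simp
    have o2 : DF v f j * (DD v f j)ᴴ = 0 := by
      have := congrArg Matrix.conjTranspose o1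
      simpa using this
    have : (DD v f j - DF v f j) * (DD v f j - DF v f j)ᴴ
        = DD v f j * (DD v f j)ᴴ + DF v f j * (DF v f j)ᴴ := by
      rw [Matrix.conjTranspose_sub, Matrix.mul_sub, Matrix.sub_mul, Matrix.sub_mul, o1, o2]
      abel
    rw [this, tr_add]
  rw [e, hs_DD hv hf, hs_DF hv hf]; ring

/-- Part (1), the row estimate. -/
theorem row {m : ℕ} (hl : 0 < lam) (hf : ∀ i < n, IsPr (f i)) (hm : m ≤ n) (y : ℕ → Mt d) :
    4 * lam * hs (∑ j ∈ Finset.range m, gg lam (Qs f m) * f j * y j)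
      ≤ ∑ j ∈ Finset.range m, hs (y j) := by
  have hQ := Q_psd hf hm
  have hgh := gherm hl.le hQ
  have h4 := gQg_le hl.le hQ
  set g := gg lam (Qs f m) with hg
  set Z := ∑ j ∈ Finset.range m, g * f j * y j with hZ
  have e1 : hs Z = ∑ j ∈ Finset.range m, tr ((Zᴴ * g * f j) * 1 * ((y j)ᴴ)ᴴ) := by
    rw [hs_eq]
    nth_rewrite 2 [hZ]
    rw [Finset.mul_sum, tr_sum]
    refine Finset.sum_congr rfl fun j _ => ?_
    rw [Matrix.conjTranspose_conjTranspose, Matrix.mul_one]
    simp only [Matrix.mul_assoc]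
  have e2 : ∀ j ∈ Finset.range m, 2 * tr ((Zᴴ * g * f j) * 1 * ((y j)ᴴ)ᴴ)
      ≤ 4 * lam * tr (Zᴴ * (g * f j * g) * Z) + (4 * lam)⁻¹ * hs (y j) := by
    intro j hj
    have hj' : IsPr (f j) := hf j (by have := Finset.mem_range.1 hj; omega)
    have := cs (Matrix.PosSemidef.one (n := Fin d) (R := ℂ)) (Zᴴ * g * f j) ((y j)ᴴ) (4 * lam)
      (by positivity)
    refine this.trans (le_of_eq ?_)
    congr 2
    · simp only [Matrix.conjTranspose_mul, Matrix.conjTranspose_conjTranspose, hj'.1, hgh,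
        Matrix.mul_one]
      congr 1
      calc Zᴴ * g * f j * (f j * (g * Z)) = Zᴴ * g * (f j * f j) * (g * Z) := by
            simp only [Matrix.mul_assoc]
        _ = _ := by rw [hj'.2]; simp only [Matrix.mul_assoc]
    · rw [Matrix.conjTranspose_conjTranspose, Matrix.mul_one, hs_eq]
  have e3 : ∑ j ∈ Finset.range m, tr (Zᴴ * (g * f j * g) * Z) = tr (Zᴴ * (g * Qs f m * g) * Z) := by
    have e0 : ∑ j ∈ Finset.range m, Zᴴ * (g * f j * g) * Z = Zᴴ * (g * Qs f m * g) * Z := by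
      clear_value Z
      unfold Qs
      rw [Finset.mul_sum, Finset.sum_mul, Finset.mul_sum, Finset.sum_mul]
    rw [← tr_sum, e0]
  have e4 : 4 * lam * tr (Zᴴ * (g * Qs f m * g) * Z) ≤ hs Z := by
    have := cj_mono h4 Zᴴ
    rw [Matrix.conjTranspose_conjTranspose, Matrix.mul_smul, Matrix.smul_mul, tr_smul,
      Matrix.mul_one] at this
    rw [hs_eq]
    exact this
  have e5 : 2 * hs Z ≤ hs Z + (4 * lam)⁻¹ * ∑ j ∈ Finset.range m, hs (y j) := by
    calc 2 * hs Z = ∑ j ∈ Finset.range m, 2 * tr ((Zᴴ * g * f j) * 1 * ((y j)ᴴ)ᴴ) := by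
          rw [e1, Finset.mul_sum]
      _ ≤ ∑ j ∈ Finset.range m,
          (4 * lam * tr (Zᴴ * (g * f j * g) * Z) + (4 * lam)⁻¹ * hs (y j)) :=
          Finset.sum_le_sum e2
      _ = 4 * lam * tr (Zᴴ * (g * Qs f m * g) * Z)
          + (4 * lam)⁻¹ * ∑ j ∈ Finset.range m, hs (y j) := by
          rw [Finset.sum_add_distrib, ← Finset.mul_sum, ← Finset.mul_sum, e3]
      _ ≤ _ := by linarith
  have e6 : hs Z ≤ (4 * lam)⁻¹ * ∑ j ∈ Finset.range m, hs (y j) := by linarith
  calc 4 * lam * hs Z ≤ 4 * lam * ((4 * lam)⁻¹ * ∑ j ∈ Finset.range m, hs (y j)) :=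
        mul_le_mul_of_nonneg_left e6 (by positivity)
    _ = _ := by field_simp

/-- Part (1): `4 lam ‖g E' x‖² ≤ ∑ ‖D'_j x‖²`. -/
theorem rowF {m : ℕ} (hl : 0 < lam) (hf : ∀ i < n, IsPr (f i)) (hm : m ≤ n) (x : Mt d) :
    4 * lam * hs (gg lam (Qs f m) * EF v f m * x)
      ≤ ∑ j ∈ Finset.range m, hs (DF v f j * x) := by
  have := row hl hf hm (fun j => DF v f j * x)
  refine le_trans (le_of_eq ?_) this
  congr 2
  unfold EF
  rw [Finset.mul_sum, Finset.sum_mul]
  refine Finset.sum_congr rfl fun j hj => ?_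
  have hj' : IsPr (f j) := hf j (by have := Finset.mem_range.1 hj; omega)
  have e : f j * DF v f j = DF v f j := by
    unfold DF
    rw [← Matrix.mul_assoc, ← Matrix.mul_assoc, hj'.2]
  rw [← Matrix.mul_assoc, Matrix.mul_assoc _ (f j), e]

/-- The potential. -/
def Psi (lam : ℝ) (v : Mt d) (f : ℕ → Mt d) (i : ℕ) : ℝ :=
  tr (EE v f i * gg lam (Qs f i) * (EE v f i)ᴴ)

/-- The drop `s_i`. -/
def ss (lam : ℝ) (v : Mt d) (f : ℕ → Mt d) (i : ℕ) : ℝ :=
  lam ^ 2 * (Psi lam v f i - tr (EE v f i * gg lam (Qs f (i + 1)) * (EE v f i)ᴴ))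

theorem drop (hl : 0 < lam) (hf : ∀ i < n, IsPr (f i)) {i : ℕ} (hi : i < n) {c : ℝ}
    (hc : 0 < c) :
    lam ^ 2 * Psi lam v f (i + 1) + ss lam v f i
      ≤ lam ^ 2 * Psi lam v f i + (c + 1) * lam * hs (DD v f i) + c⁻¹ * ss lam v f i := by
  have hQ := Q_psd hf hi.le
  obtain ⟨R, hR, hR1, k3, k4, k5, -⟩ := step hl hQ (hf i hi)
  have hgh := gherm hl.le hQ
  have hfi := hf i hi
  have hgh' : (gg lam (Qs f i + f i))ᴴ = gg lam (Qs f i + f i) :=
    gherm hl.le (hQ.add (pr_psd hfi))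
  have hs1 : ss lam v f i = lam ^ 2 * (Psi lam v f i
      - tr (EE v f i * gg lam (Qs f i + f i) * (EE v f i)ᴴ)) := by
    unfold ss; rw [Q_succ]
  have hP : Psi lam v f (i + 1)
      = tr (EE v f i * gg lam (Qs f i + f i) * (EE v f i)ᴴ)
        + 2 * tr (DD v f i * gg lam (Qs f i + f i) * (EE v f i)ᴴ)
        + tr (DD v f i * gg lam (Qs f i + f i) * (DD v f i)ᴴ) := by
    unfold Psi
    rw [Q_succ]
    have : EE v f (i + 1) = EE v f i + DD v f i := by
      unfold EE; rw [Finset.sum_range_succ]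
    rw [this]
    have e2 : tr (EE v f i * gg lam (Qs f i + f i) * (DD v f i)ᴴ)
        = tr (DD v f i * gg lam (Qs f i + f i) * (EE v f i)ᴴ) := by
      rw [← tr_conj]
      simp only [Matrix.conjTranspose_mul, Matrix.conjTranspose_conjTranspose, hgh']
      rw [Matrix.mul_assoc]
    rw [Matrix.conjTranspose_add, Matrix.mul_add, Matrix.add_mul, Matrix.add_mul, Matrix.add_mul,
      tr_add, tr_add, tr_add, e2]
    ring
  have hDf : DD v f i * f i = DD v f i := by
    unfold DD; rw [Matrix.mul_assoc, hfi.2]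
  have hfD : f i * (DD v f i)ᴴ = (DD v f i)ᴴ := by
    have := congrArg Matrix.conjTranspose hDf
    simpa [hfi.1] using this
  set g := gg lam (Qs f i) with hg
  set g' := gg lam (Qs f i + f i) with hg'
  set E := EE v f i with hE
  set D := DD v f i with hD
  -- cross term
  have cr : 2 * lam ^ 2 * tr (D * g' * Eᴴ) ≤ c * lam * hs D + c⁻¹ * ss lam v f i := by
    have h := cs hR D (E * g * f i) (c / lam) (by positivity)
    have e1 : D * R * (E * g * f i)ᴴ = D * g' * Eᴴ := by
      simp only [Matrix.conjTranspose_mul, hfi.1, hgh]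
      calc D * R * (f i * (g * Eᴴ)) = D * (R * f i * g) * Eᴴ := by simp only [Matrix.mul_assoc]
        _ = D * (f i * g') * Eᴴ := by rw [k3]
        _ = (D * f i) * g' * Eᴴ := by simp only [Matrix.mul_assoc]
        _ = _ := by rw [hDf]
    have e2 : tr (D * R * Dᴴ) ≤ hs D := by
      have := cj_mono hR1 D
      rwa [Matrix.mul_one, ← hs_eq'] at this
    have e3 : lam * tr ((E * g * f i) * R * (E * g * f i)ᴴ)
        = Psi lam v f i - tr (E * g' * Eᴴ) := by
      unfold Psi
      have e4 : (E * g * f i)ᴴ = f i * g * Eᴴ := by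
        rw [Matrix.conjTranspose_mul, Matrix.conjTranspose_mul, hfi.1, hgh, Matrix.mul_assoc]
      have e5 : E * g * f i * R * (f i * g * Eᴴ) = E * (g * f i * R * f i * g) * Eᴴ := by
        simp only [Matrix.mul_assoc]
      rw [← hE, ← hg, ← tr_sub, ← Matrix.sub_mul, ← Matrix.mul_sub, k4, Matrix.mul_smul,
        Matrix.smul_mul, tr_smul, e4, e5]
    rw [e1] at h
    have h2 : lam ^ 2 * (2 * tr (D * g' * Eᴴ))
        ≤ lam ^ 2 * (c / lam * tr (D * R * Dᴴ)
          + (c / lam)⁻¹ * tr (E * g * f i * R * (E * g * f i)ᴴ)) :=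
      mul_le_mul_of_nonneg_left h (by positivity)
    have h3 : lam ^ 2 * (c / lam * tr (D * R * Dᴴ)
          + (c / lam)⁻¹ * tr (E * g * f i * R * (E * g * f i)ᴴ))
        = c * lam * tr (D * R * Dᴴ)
          + c⁻¹ * (lam ^ 2 * (lam * tr (E * g * f i * R * (E * g * f i)ᴴ))) := by
      field_simp
    rw [h3, e3] at h2
    have h4 : c * lam * tr (D * R * Dᴴ) ≤ c * lam * hs D :=
      mul_le_mul_of_nonneg_left e2 (by positivity)
    rw [hs1]
    linarith
  have dd : lam ^ 2 * tr (D * g' * Dᴴ) ≤ lam * hs D := by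
    have := cj_mono k5 D
    rw [Matrix.mul_one, ← hs_eq', Matrix.mul_smul, Matrix.smul_mul, tr_smul] at this
    have e : D * (f i * g' * f i) * Dᴴ = D * g' * Dᴴ := by
      calc D * (f i * g' * f i) * Dᴴ = (D * f i) * g' * (f i * Dᴴ) := by
            simp only [Matrix.mul_assoc]
        _ = _ := by rw [hDf, hfD]
    rw [e] at this
    nlinarith
  rw [hP, hs1] at *
  nlinarith


theorem Psi_nonneg (hl : 0 < lam) (hf : ∀ i < n, IsPr (f i)) {i : ℕ} (hi : i ≤ n) :
    0 ≤ Psi lam v f i :=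
  cj_nonneg (gpd hl.le (Q_psd hf hi)).posSemidef _

theorem drops (hl : 0 < lam) (hf : ∀ i < n, IsPr (f i)) {c : ℝ} (hc : 0 < c) (m : ℕ)
    (hm : m ≤ n) :
    lam ^ 2 * Psi lam v f m + ∑ i ∈ Finset.range m, ss lam v f i
      ≤ (c + 1) * lam * ∑ i ∈ Finset.range m, hs (DD v f i)
        + c⁻¹ * ∑ i ∈ Finset.range m, ss lam v f i := by
  induction m with
  | zero => simp [Psi, EE, tr]
  | succ m ih =>
    have h1 := ih (by omega)
    have h2 := drop (v := v) hl hf (i := m) (by omega) hc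
    rw [Finset.sum_range_succ, Finset.sum_range_succ]
    nlinarith

theorem split {m : ℕ} (hl : 0 < lam) (hf : ∀ i < n, IsPr (f i)) (hm : m ≤ n) (x : Mt d) :
    hs ((v * gg lam (Qs f m) - gg lam (Qs f m) * v) * x)
      ≤ 2 * (lam ^ 2 * hs (gg lam (Qs f m) * (EE v f m * (gg lam (Qs f m) * x))))
        + 2 * (lam ^ 2 * hs (gg lam (Qs f m) * EF v f m * (gg lam (Qs f m) * x))) := by
  have hQ := Q_psd hf hm
  rw [comm_g hl.le hQ, comm_Q]
  set g := gg lam (Qs f m)
  have e : -((lam : ℂ) • (g * (EE v f m - EF v f m) * g)) * x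
      = (lam : ℂ) • (g * EF v f m * (g * x)) - (lam : ℂ) • (g * (EE v f m * (g * x))) := by
    rw [Matrix.neg_mul, Matrix.smul_mul, Matrix.mul_sub, Matrix.sub_mul, Matrix.sub_mul,
      smul_sub]
    simp only [Matrix.mul_assoc]
    abel
  rw [e]
  have := hs_sub_le ((lam : ℂ) • (g * EF v f m * (g * x)))
    ((lam : ℂ) • (g * (EE v f m * (g * x))))
  rw [hs_smul, hs_smul] at this
  linarith

theorem T1 {i : ℕ} (hl : 0 < lam) (hf : ∀ i < n, IsPr (f i)) (hi : i < n) :
    lam ^ 2 * hs (gg lam (Qs f i) * (EE v f i * (gg lam (Qs f i) * f i)))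
      ≤ (1 + lam) / lam * ss lam v f i := by
  have hQ := Q_psd hf hi.le
  obtain ⟨R, hR, hR1, k3, k4, k5, k6⟩ := step hl hQ (hf i hi)
  have hgh := gherm hl.le hQ
  have hfi := hf i hi
  have h1 := hs_g_mul hl.le hQ (EE v f i * (gg lam (Qs f i) * f i))
  have hs1 : ss lam v f i = lam ^ 2 * (lam * tr (EE v f i *
      (gg lam (Qs f i) * f i * R * f i * gg lam (Qs f i)) * (EE v f i)ᴴ)) := by
    unfold ss Psi
    rw [Q_succ, ← tr_sub, ← Matrix.sub_mul, ← Matrix.mul_sub, k4, Matrix.mul_smul,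
      Matrix.smul_mul, tr_smul]
  have h2 : hs (EE v f i * (gg lam (Qs f i) * f i))
      = tr (EE v f i * (gg lam (Qs f i) * f i * gg lam (Qs f i)) * (EE v f i)ᴴ) := by
    rw [hs_eq', Matrix.conjTranspose_mul, Matrix.conjTranspose_mul, hgh, hfi.1]
    have : EE v f i * (gg lam (Qs f i) * f i) * (f i * gg lam (Qs f i) * (EE v f i)ᴴ)
        = EE v f i * (gg lam (Qs f i) * (f i * f i) * gg lam (Qs f i)) * (EE v f i)ᴴ := by
      simp only [Matrix.mul_assoc]
    rw [this, hfi.2]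
  have h3 := cj_mono k6 (EE v f i)
  rw [Matrix.mul_smul, Matrix.smul_mul, tr_smul] at h3
  rw [hs1]
  set T := tr (EE v f i *
      (gg lam (Qs f i) * f i * R * f i * gg lam (Qs f i)) * (EE v f i)ᴴ)
  have h4 : hs (gg lam (Qs f i) * (EE v f i * (gg lam (Qs f i) * f i))) ≤ (1 + lam) * T := by
    linarith
  calc lam ^ 2 * hs (gg lam (Qs f i) * (EE v f i * (gg lam (Qs f i) * f i)))
      ≤ lam ^ 2 * ((1 + lam) * T) := mul_le_mul_of_nonneg_left h4 (by positivity)
    _ = (1 + lam) / lam * (lam ^ 2 * (lam * T)) := by field_simp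

theorem T2 {i : ℕ} (hl : 0 < lam) (hf : ∀ i < n, IsPr (f i)) (hi : i < n) :
    lam ^ 2 * hs (gg lam (Qs f i) * EF v f i * (gg lam (Qs f i) * f i))
      ≤ lam / 4 * ∑ j ∈ Finset.range n,
        tr (DF v f j * (gg lam (Qs f i) * f i * gg lam (Qs f i)) * (DF v f j)ᴴ) := by
  have hQ := Q_psd hf hi.le
  have hgh := gherm hl.le hQ
  have hfi := hf i hi
  have h1 := rowF (v := v) hl hf hi.le (gg lam (Qs f i) * f i)
  have h2 : ∑ j ∈ Finset.range i, hs (DF v f j * (gg lam (Qs f i) * f i))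
      ≤ ∑ j ∈ Finset.range n, hs (DF v f j * (gg lam (Qs f i) * f i)) := by
    refine Finset.sum_le_sum_of_subset_of_nonneg (Finset.range_mono hi.le) ?_
    intro j _ _
    exact hs_nonneg _
  have h3 : ∀ j, hs (DF v f j * (gg lam (Qs f i) * f i))
      = tr (DF v f j * (gg lam (Qs f i) * f i * gg lam (Qs f i)) * (DF v f j)ᴴ) := by
    intro j
    rw [hs_eq', Matrix.conjTranspose_mul, Matrix.conjTranspose_mul, hgh, hfi.1]
    have : DF v f j * (gg lam (Qs f i) * f i) * (f i * gg lam (Qs f i) * (DF v f j)ᴴ)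
        = DF v f j * (gg lam (Qs f i) * (f i * f i) * gg lam (Qs f i)) * (DF v f j)ᴴ := by
      simp only [Matrix.mul_assoc]
    rw [this, hfi.2]
  simp only [h3] at h2 h1
  have h4 := h1.trans h2
  nlinarith

end sums

theorem main (hA : ResAP) : ResBP := by
  intro d n f lam v hl1 hf hv
  have hl : 0 < lam := by linarith
  have hQn := Q_psd hf (le_refl n)
  set S0 := ∑ i ∈ Finset.range n, hs (DD v f i) with hS0
  have hS0n : 0 ≤ S0 := Finset.sum_nonneg fun i _ => hs_nonneg _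
  have hS : ∑ i ∈ Finset.range n, hs (v * f i - f i * v) = 2 * S0 := by
    rw [hS0, Finset.mul_sum]
    exact Finset.sum_congr rfl fun j hj => hs_comm hv (hf j (Finset.mem_range.1 hj))
  have hSF : ∑ i ∈ Finset.range n, hs (DF v f i) = S0 := by
    rw [hS0]
    refine Finset.sum_congr rfl fun j hj => ?_
    have := hf j (Finset.mem_range.1 hj)
    rw [hs_DF hv this, hs_DD hv this]
  have d1 := drops (v := v) hl hf (c := 1) one_pos n le_rfl
  have d2 := drops (v := v) hl hf (c := 2) two_pos n le_rfl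
  have hPsi := Psi_nonneg (v := v) hl hf (le_refl n)
  set s := ∑ i ∈ Finset.range n, ss lam v f i with hs'
  rw [← hS0] at d1 d2
  have hPsi2 : 0 ≤ lam ^ 2 * Psi lam v f n := mul_nonneg (by positivity) hPsi
  have b1 : lam ^ 2 * Psi lam v f n ≤ 2 * lam * S0 := by
    norm_num at d1
    linarith
  have b2 : s ≤ 6 * lam * S0 := by
    norm_num at d2
    linarith
  rw [hS]
  constructor
  · have t1 : ∑ i ∈ Finset.range n,
        lam ^ 2 * hs (gg lam (Qs f i) * (EE v f i * (gg lam (Qs f i) * f i)))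
        ≤ (1 + lam) / lam * s := by
      rw [hs', Finset.mul_sum]
      exact Finset.sum_le_sum fun i hi => T1 hl hf (Finset.mem_range.1 hi)
    have t1' : (1 + lam) / lam * s ≤ 6 * (1 + lam) * S0 := by
      have : (1 + lam) / lam * s ≤ (1 + lam) / lam * (6 * lam * S0) :=
        mul_le_mul_of_nonneg_left b2 (by positivity)
      refine this.trans (le_of_eq ?_)
      field_simp
    have t2 : ∑ i ∈ Finset.range n,
        lam ^ 2 * hs (gg lam (Qs f i) * EF v f i * (gg lam (Qs f i) * f i))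
        ≤ lam / 4 * ((1 + 1 / lam) * S0) := by
      calc ∑ i ∈ Finset.range n,
            lam ^ 2 * hs (gg lam (Qs f i) * EF v f i * (gg lam (Qs f i) * f i))
          ≤ ∑ i ∈ Finset.range n, lam / 4 * ∑ j ∈ Finset.range n,
            tr (DF v f j * (gg lam (Qs f i) * f i * gg lam (Qs f i)) * (DF v f j)ᴴ) :=
            Finset.sum_le_sum fun i hi => T2 hl hf (Finset.mem_range.1 hi)
        _ = lam / 4 * ∑ j ∈ Finset.range n, tr (DF v f j * (∑ i ∈ Finset.range n,
              gg lam (Qs f i) * f i * gg lam (Qs f i)) * (DF v f j)ᴴ) := by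
            rw [← Finset.mul_sum, Finset.sum_comm]
            congr 1
            refine Finset.sum_congr rfl fun j _ => ?_
            rw [← tr_sum, Finset.mul_sum, Finset.sum_mul]
        _ ≤ lam / 4 * ∑ j ∈ Finset.range n, (1 + 1 / lam) * hs (DF v f j) := by
            refine mul_le_mul_of_nonneg_left ?_ (by positivity)
            refine Finset.sum_le_sum fun j _ => ?_
            have h1 := cj_mono (hA d n f lam hl1 hf) (DF v f j)
            rw [Matrix.mul_smul, Matrix.smul_mul, tr_smul] at h1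
            refine h1.trans (mul_le_mul_of_nonneg_left ?_ (by positivity))
            have h2 := cj_nonneg (gpd hl.le hQn).posSemidef (DF v f j)
            rw [Matrix.mul_sub, Matrix.sub_mul, tr_sub, Matrix.mul_one, ← hs_eq']
            linarith
        _ = _ := by rw [← Finset.mul_sum, hSF]
    have t2' : lam / 4 * ((1 + 1 / lam) * S0) = (1 + lam) / 4 * S0 := by
      field_simp
      ring
    rw [t2'] at t2
    have sp : ∑ i ∈ Finset.range n,
        hs ((v * gg lam (Qs f i) - gg lam (Qs f i) * v) * f i)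
        ≤ ∑ i ∈ Finset.range n,
          (2 * (lam ^ 2 * hs (gg lam (Qs f i) * (EE v f i * (gg lam (Qs f i) * f i))))
          + 2 * (lam ^ 2 * hs (gg lam (Qs f i) * EF v f i * (gg lam (Qs f i) * f i)))) :=
      Finset.sum_le_sum fun i hi => split hl hf (Finset.mem_range.1 hi).le (f i)
    simp only [Finset.sum_add_distrib, ← Finset.mul_sum] at sp t1 t2
    have hp : 0 ≤ (1 + lam) * S0 := mul_nonneg (by linarith) hS0n
    nlinarith
  · have sp := split (v := v) hl hf (le_refl n) 1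
    simp only [Matrix.mul_one] at sp
    have q1 : lam ^ 2 * hs (gg lam (Qs f n) * (EE v f n * gg lam (Qs f n)))
        ≤ 2 * lam * S0 := by
      have h1 := hs_g_mul hl.le hQn (EE v f n * gg lam (Qs f n))
      have h2 := hs_mul_g hl.le hQn (EE v f n)
      have h3 : lam ^ 2 * hs (gg lam (Qs f n) * (EE v f n * gg lam (Qs f n)))
          ≤ lam ^ 2 * Psi lam v f n :=
        mul_le_mul_of_nonneg_left (h1.trans h2) (by positivity)
      exact h3.trans b1
    have q2 : lam ^ 2 * hs (gg lam (Qs f n) * EF v f n * gg lam (Qs f n)) ≤ lam / 4 * S0 := by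
      have h1 := rowF (v := v) hl hf (le_refl n) (gg lam (Qs f n))
      have h2 : ∑ j ∈ Finset.range n, hs (DF v f j * gg lam (Qs f n)) ≤ S0 := by
        rw [← hSF]
        exact Finset.sum_le_sum fun j _ =>
          (hs_mul_g hl.le hQn (DF v f j)).trans (tr_g_le hl.le hQn (DF v f j))
      nlinarith
    nlinarith

end

end Pool.Agent.W486.RC
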